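import Pool.Agent.Y438.LD.A4

/-!
# LD-G, part 2: the mean values of the sets of the tail (job 9765)
-/

set_option autoImplicit false

open Finset Filter

namespace Pool.Agent.Y542.LD
open Pool.Agent.Y438.LD (NC NC_le_fourier Gd oT prod_pos' cop1 cop2 oT_pos oT_dvd PT mem_PT_good sub_PT card_PT
  prod_bound fib DX)

/-- one free exponent -/
lemma cnt (b : ℕ) (U : Finset ℕ) (hU : ∀ p ∈ U, Gd b p) (s Y : ℕ) (hY : 1 ≤ Y) (c : ℤ) :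
    ∑ ν : Fin (s + 1) → Fin Y, (if ∀ p ∈ U, (p : ℤ) ∣ c + (DX b ν : ℤ) then (1 : ℝ) else 0) ≤
      (1 / (oT b U : ℝ) + 1 / Y) * (Y : ℝ) ^ (s + 1) := by
  have hY0 : (0 : ℝ) < (Y : ℝ) := by exact_mod_cast hY
  rw [← (Fin.consEquiv (fun _ : Fin (s + 1) => Fin Y)).sum_comp, Fintype.sum_prod_type, Finset.sum_comm]
  have h2 : ∀ μ : Fin s → Fin Y, ∑ n : Fin Y,
      (if ∀ p ∈ U, (p : ℤ) ∣ c + (DX b ((Fin.consEquiv (fun _ : Fin (s + 1) => Fin Y)) (n, μ)) : ℤ)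
        then (1 : ℝ) else 0) ≤ (Y : ℝ) / (oT b U : ℝ) + 1 := by
    intro μ
    refine le_trans ?_ (fib b (∏ p ∈ U, p) (prod_pos' b U hU) (cop1 b U hU) Y
      (-(c : ZMod (∏ p ∈ U, p)) - ∑ j, (b : ZMod (∏ p ∈ U, p)) ^ ((μ j : ℕ) + 1)))
    refine sum_le_sum fun n _ => ?_
    by_cases h : ∀ p ∈ U, (p : ℤ) ∣ c + (DX b ((Fin.consEquiv (fun _ : Fin (s + 1) => Fin Y)) (n, μ)) : ℤ)
    · rw [if_pos h, if_pos]
      have h3 : (∏ p ∈ U, p) ∣ (c + (DX b ((Fin.consEquiv (fun _ : Fin (s + 1) => Fin Y)) (n, μ)) : ℤ)).natAbs := by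
        refine Finset.prod_primes_dvd _ (fun p hp => (hU p hp).1.prime) (fun p hp => ?_)
        exact Int.natCast_dvd.1 (h p hp)
      have h4 := (ZMod.intCast_zmod_eq_zero_iff_dvd _ (∏ p ∈ U, p)).2 (Int.natCast_dvd.2 h3)
      unfold DX at h4
      rw [Fin.sum_univ_succ] at h4
      push_cast at h4
      simp only [Fin.consEquiv, Equiv.coe_fn_mk, Fin.cons_zero, Fin.cons_succ] at h4
      rw [eq_sub_iff_add_eq, eq_neg_iff_add_eq_zero]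
      rw [add_comm]
      exact h4
    · rw [if_neg h]
      split_ifs <;> norm_num
  calc _ ≤ ∑ μ : Fin s → Fin Y, ((Y : ℝ) / (oT b U : ℝ) + 1) := Finset.sum_le_sum (fun μ _ => h2 μ)
    _ = (1 / (oT b U : ℝ) + 1 / Y) * (Y : ℝ) ^ (s + 1) := by
        rw [Finset.sum_const, Finset.card_univ, nsmul_eq_mul]
        simp only [Fintype.card_fun, Fintype.card_fin, Nat.cast_pow]
        have e : (Y : ℝ) / (oT b U : ℝ) + 1 = Y * (1 / (oT b U : ℝ) + 1 / Y) := by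
          field_simp
        rw [e]
        ring

lemma sum_cst (s Y : ℕ) (x : ℝ) : ∑ _ν : Fin (s + 1) → Fin Y, x = (Y : ℝ) ^ (s + 1) * x := by
  rw [Finset.sum_const, Finset.card_univ, nsmul_eq_mul]
  simp

lemma cnt1 (b : ℕ) (U : Finset ℕ) (hU : ∀ p ∈ U, Gd b p) (s Y : ℕ) (hY : 1 ≤ Y) (a : ℤ) :
    ∑ ν : Fin (s + 1) → Fin Y, ∑ _ν' : Fin (s + 1) → Fin Y, (if ∀ p ∈ U, (p : ℤ) ∣ a + (DX b ν : ℤ) then (1 : ℝ) else 0) ≤
      (1 / (oT b U : ℝ) + 1 / Y) * ((Y : ℝ) ^ (s + 1)) ^ 2 := by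
  rw [sum_comm]
  refine (sum_le_sum fun _ _ => cnt b U hU s Y hY a).trans (le_of_eq ?_)
  rw [sum_cst]
  ring

lemma cnt2 (b : ℕ) (U : Finset ℕ) (hU : ∀ p ∈ U, Gd b p) (s Y : ℕ) (hY : 1 ≤ Y) (a : ℤ) :
    ∑ _ν : Fin (s + 1) → Fin Y, ∑ ν' : Fin (s + 1) → Fin Y, (if ∀ p ∈ U, (p : ℤ) ∣ a + (DX b ν' : ℤ) then (1 : ℝ) else 0) ≤
      (1 / (oT b U : ℝ) + 1 / Y) * ((Y : ℝ) ^ (s + 1)) ^ 2 := by
  refine (sum_le_sum fun _ _ => cnt b U hU s Y hY a).trans (le_of_eq ?_)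
  rw [sum_cst]
  ring

lemma cnt3 (b : ℕ) (U : Finset ℕ) (hU : ∀ p ∈ U, Gd b p) (s Y : ℕ) (hY : 1 ≤ Y) :
    ∑ ν : Fin (s + 1) → Fin Y, ∑ ν' : Fin (s + 1) → Fin Y,
      (if ∀ p ∈ U, (p : ℤ) ∣ (DX b ν : ℤ) - (DX b ν' : ℤ) then (1 : ℝ) else 0) ≤
      (1 / (oT b U : ℝ) + 1 / Y) * ((Y : ℝ) ^ (s + 1)) ^ 2 := by
  rw [sum_comm]
  have h : ∀ ν' ∈ (univ : Finset (Fin (s + 1) → Fin Y)), ∑ ν : Fin (s + 1) → Fin Y,
      (if ∀ p ∈ U, (p : ℤ) ∣ (DX b ν : ℤ) - (DX b ν' : ℤ) then (1 : ℝ) else 0) ≤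
      (1 / (oT b U : ℝ) + 1 / Y) * (Y : ℝ) ^ (s + 1) := by
    intro ν' _
    have h1 := cnt b U hU s Y hY (-(DX b ν' : ℤ))
    refine le_trans (le_of_eq (sum_congr rfl fun ν _ => ?_)) h1
    rw [neg_add_eq_sub]
  refine (sum_le_sum h).trans (le_of_eq ?_)
  rw [sum_cst]
  ring

lemma oT_le (b : ℕ) (V : Finset ℕ) (hV : ∀ p ∈ V, Gd b p) : oT b V ≤ ∏ p ∈ V, p := by
  have : NeZero (∏ p ∈ V, p) := ⟨(prod_pos' b V hV).ne'⟩
  unfold oT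
  rw [← ZMod.coe_unitOfCoprime b (cop1 b V hV), orderOf_units]
  refine (orderOf_le_card_univ).trans ?_
  rw [ZMod.card_units_eq_totient]
  exact Nat.totient_le _

lemma ord_mul (b : ℕ) (hb : 2 ≤ b) (T V1 V2 V3 V4 : Finset ℕ) (hT : ∀ p ∈ T, Gd b p)
    (h : ∀ p ∈ T, p ∈ V1 ∨ p ∈ V2 ∨ p ∈ V3 ∨ p ∈ V4) :
    oT b T ∣ oT b V1 * oT b V2 * oT b V3 * oT b V4 := by
  obtain ⟨O, hO⟩ : ∃ O, O = oT b V1 * oT b V2 * oT b V3 * oT b V4 := ⟨_, rfl⟩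
  rw [← hO]
  have h1 : ∀ p ∈ T, p ∣ b ^ O - 1 := by
    intro p hp
    have h2 : ∀ V : Finset ℕ, p ∈ V → oT b V ∣ O → p ∣ b ^ O - 1 := by
      intro V hV ⟨m, hm⟩
      refine (oT_dvd b hb V p hV).trans ?_
      rw [hm, pow_mul]
      have := Nat.sub_dvd_pow_sub_pow (b ^ oT b V) 1 m
      rwa [one_pow] at this
    rcases h p hp with h3 | h3 | h3 | h3
    · exact h2 V1 h3 ⟨oT b V2 * oT b V3 * oT b V4, by rw [hO]; ring⟩
    · exact h2 V2 h3 ⟨oT b V1 * oT b V3 * oT b V4, by rw [hO]; ring⟩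
    · exact h2 V3 h3 ⟨oT b V1 * oT b V2 * oT b V4, by rw [hO]; ring⟩
    · exact h2 V4 h3 ⟨oT b V1 * oT b V2 * oT b V3, by rw [hO]; ring⟩
  have h2 : (∏ p ∈ T, p) ∣ b ^ O - 1 := Finset.prod_primes_dvd _ (fun p hp => (hT p hp).1.prime) h1
  have h3 : 1 ≤ b ^ O := Nat.one_le_pow _ _ (by omega)
  unfold oT
  rw [orderOf_dvd_iff_pow_eq_one]
  have h4 := (ZMod.natCast_eq_zero_iff (b ^ O - 1) (∏ p ∈ T, p)).2 h2
  rw [Nat.cast_sub h3] at h4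
  push_cast at h4
  exact sub_eq_zero.1 h4

/-- the pointwise bound -/
lemma pointwise (b : ℕ) (hb : 2 ≤ b) (T : Finset ℕ) (hT : ∀ p ∈ T, Gd b p) (j : ℕ) (hj : 16 ^ j ≤ oT b T)
    (D1 D2 D3 : ℤ) :
    ∏ p ∈ T, ((if (p : ℤ) ∣ D1 * D2 * D3 then (1 : ℝ) else 0) + 1 / p) ≤
      2 ^ T.card * ((∑ U ∈ T.powerset.filter (fun U => 2 ^ j ≤ oT b U),
        ((if ∀ p ∈ U, (p : ℤ) ∣ D1 then (1 : ℝ) else 0) + (if ∀ p ∈ U, (p : ℤ) ∣ D2 then (1 : ℝ) else 0) +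
          (if ∀ p ∈ U, (p : ℤ) ∣ D3 then (1 : ℝ) else 0))) + (1 / 2) ^ j) := by
  classical
  obtain ⟨V1, hV1⟩ : ∃ V1, V1 = T.filter (fun p : ℕ => (p : ℤ) ∣ D1) := ⟨_, rfl⟩
  obtain ⟨V2, hV2⟩ : ∃ V2, V2 = T.filter (fun p : ℕ => (p : ℤ) ∣ D2) := ⟨_, rfl⟩
  obtain ⟨V3, hV3⟩ : ∃ V3, V3 = T.filter (fun p : ℕ => (p : ℤ) ∣ D3) := ⟨_, rfl⟩
  obtain ⟨V4, hV4⟩ : ∃ V4, V4 = T.filter (fun p : ℕ => ¬ (p : ℤ) ∣ D1 * D2 * D3) := ⟨_, rfl⟩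
  have hp1 : ∀ p ∈ T, (1 : ℝ) ≤ p := fun p hp => by exact_mod_cast (hT p hp).1.one_le
  -- the reduction
  have h1 : ∏ p ∈ T, ((if (p : ℤ) ∣ D1 * D2 * D3 then (1 : ℝ) else 0) + 1 / p) ≤ 2 ^ T.card * ∏ p ∈ V4, (1 / (p : ℝ)) := by
    rw [hV4, prod_filter, ← prod_const, ← prod_mul_distrib]
    refine prod_le_prod (fun p _ => ?_) (fun p hp => ?_)
    · split_ifs <;> positivity
    · have h2 := hp1 p hp
      have h3 : 1 / (p : ℝ) ≤ 1 := by rw [div_le_one (by linarith)]; exact h2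
      have h4 : 0 ≤ 1 / (p : ℝ) := by positivity
      by_cases h5 : (p : ℤ) ∣ D1 * D2 * D3
      · rw [if_pos h5, if_neg (not_not.2 h5)]
        linarith
      · rw [if_neg h5, if_pos h5]
        linarith
  refine h1.trans (mul_le_mul_of_nonneg_left ?_ (by positivity))
  -- the orders
  have h2 : oT b T ≤ oT b V1 * oT b V2 * oT b V3 * oT b V4 := by
    refine Nat.le_of_dvd ?_ (ord_mul b hb T V1 V2 V3 V4 hT ?_)
    · refine Nat.mul_pos (Nat.mul_pos (Nat.mul_pos ?_ ?_) ?_) ?_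
      · exact oT_pos b V1 fun p hp => hT p (by rw [hV1] at hp; exact (mem_filter.1 hp).1)
      · exact oT_pos b V2 fun p hp => hT p (by rw [hV2] at hp; exact (mem_filter.1 hp).1)
      · exact oT_pos b V3 fun p hp => hT p (by rw [hV3] at hp; exact (mem_filter.1 hp).1)
      · exact oT_pos b V4 fun p hp => hT p (by rw [hV4] at hp; exact (mem_filter.1 hp).1)
    · intro p hp
      rw [hV1, hV2, hV3, hV4, mem_filter, mem_filter, mem_filter, mem_filter]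
      by_cases h5 : (p : ℤ) ∣ D1 * D2 * D3
      · have hpp := Nat.prime_iff_prime_int.1 (hT p hp).1
        rcases hpp.dvd_or_dvd h5 with h6 | h6
        · rcases hpp.dvd_or_dvd h6 with h7 | h7
          · exact Or.inl ⟨hp, h7⟩
          · exact Or.inr (Or.inl ⟨hp, h7⟩)
        · exact Or.inr (Or.inr (Or.inl ⟨hp, h6⟩))
      · exact Or.inr (Or.inr (Or.inr ⟨hp, h5⟩))
  have hle1 : ∏ p ∈ V4, (1 / (p : ℝ)) ≤ 1 := by
    refine prod_le_one (fun p _ => by positivity) fun p hp => ?_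
    have h3 := hp1 p (by rw [hV4] at hp; exact (mem_filter.1 hp).1)
    rw [div_le_one (by linarith)]
    exact h3
  have hnn : ∀ U ∈ T.powerset.filter (fun U => 2 ^ j ≤ oT b U),
      0 ≤ ((if ∀ p ∈ U, (p : ℤ) ∣ D1 then (1 : ℝ) else 0) + (if ∀ p ∈ U, (p : ℤ) ∣ D2 then (1 : ℝ) else 0) +
          (if ∀ p ∈ U, (p : ℤ) ∣ D3 then (1 : ℝ) else 0)) := by
    intro U _
    positivity
  have hhalf : (0 : ℝ) ≤ (1 / 2) ^ j := by positivity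
  have hcase : ∀ V : Finset ℕ, V ⊆ T → 2 ^ j ≤ oT b V →
      ((∀ p ∈ V, (p : ℤ) ∣ D1) ∨ (∀ p ∈ V, (p : ℤ) ∣ D2) ∨ (∀ p ∈ V, (p : ℤ) ∣ D3)) →
      ∏ p ∈ V4, (1 / (p : ℝ)) ≤ (∑ U ∈ T.powerset.filter (fun U => 2 ^ j ≤ oT b U),
        ((if ∀ p ∈ U, (p : ℤ) ∣ D1 then (1 : ℝ) else 0) + (if ∀ p ∈ U, (p : ℤ) ∣ D2 then (1 : ℝ) else 0) +
          (if ∀ p ∈ U, (p : ℤ) ∣ D3 then (1 : ℝ) else 0))) + (1 / 2) ^ j := by
    intro V hVT hVo hV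
    have hmem : V ∈ T.powerset.filter (fun U => 2 ^ j ≤ oT b U) := mem_filter.2 ⟨mem_powerset.2 hVT, hVo⟩
    have h3 := single_le_sum hnn hmem
    have h4 : (1 : ℝ) ≤ ((if ∀ p ∈ V, (p : ℤ) ∣ D1 then (1 : ℝ) else 0) + (if ∀ p ∈ V, (p : ℤ) ∣ D2 then (1 : ℝ) else 0) +
          (if ∀ p ∈ V, (p : ℤ) ∣ D3 then (1 : ℝ) else 0)) := by
      rcases hV with h5 | h5 | h5
      · rw [if_pos h5]
        split_ifs <;> norm_num
      · rw [if_pos h5]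
        split_ifs <;> norm_num
      · rw [if_pos h5]
        split_ifs <;> norm_num
    linarith
  by_cases c1 : 2 ^ j ≤ oT b V1
  · exact hcase V1 (by rw [hV1]; exact filter_subset _ _) c1 (Or.inl fun p hp => by
      rw [hV1] at hp; exact (mem_filter.1 hp).2)
  by_cases c2 : 2 ^ j ≤ oT b V2
  · exact hcase V2 (by rw [hV2]; exact filter_subset _ _) c2 (Or.inr (Or.inl fun p hp => by
      rw [hV2] at hp; exact (mem_filter.1 hp).2))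
  by_cases c3 : 2 ^ j ≤ oT b V3
  · exact hcase V3 (by rw [hV3]; exact filter_subset _ _) c3 (Or.inr (Or.inr fun p hp => by
      rw [hV3] at hp; exact (mem_filter.1 hp).2))
  have c4 : 2 ^ j ≤ oT b V4 := by
    by_contra c4
    push Not at c1 c2 c3 c4
    have h3 : oT b V1 * oT b V2 * oT b V3 * oT b V4 < 2 ^ j * 2 ^ j * 2 ^ j * 2 ^ j :=
      Nat.mul_lt_mul'' (Nat.mul_lt_mul'' (Nat.mul_lt_mul'' c1 c2) c3) c4
    have h4 : (2 : ℕ) ^ j * 2 ^ j * 2 ^ j * 2 ^ j = 16 ^ j := by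
      rw [← mul_pow, ← mul_pow, ← mul_pow]
      norm_num
    omega
  have h3 : ∏ p ∈ V4, (1 / (p : ℝ)) ≤ (1 / 2) ^ j := by
    have hg4 : ∀ p ∈ V4, Gd b p := fun p hp => hT p (by rw [hV4] at hp; exact (mem_filter.1 hp).1)
    have h4 : 2 ^ j ≤ ∏ p ∈ V4, p := c4.trans (oT_le b V4 hg4)
    have h5 : ∏ p ∈ V4, (1 / (p : ℝ)) = 1 / ((∏ p ∈ V4, p : ℕ) : ℝ) := by
      push_cast
      rw [prod_div_distrib, prod_const_one]
    rw [h5, one_div_pow]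
    refine one_div_le_one_div_of_le (by positivity) ?_
    exact_mod_cast h4
  have h4 := sum_nonneg hnn
  linarith

/-- the mean value of a set of the tail -/
lemma meanT (b : ℕ) (hb : 2 ≤ b) (T : Finset ℕ) (hT : ∀ p ∈ T, Gd b p) (j : ℕ) (hj : 16 ^ j ≤ oT b T)
    (s Y : ℕ) (hY : 1 ≤ Y) (a : ℤ) :
    ∑ ν : Fin (s + 1) → Fin Y, ∑ ν' : Fin (s + 1) → Fin Y, ∏ p ∈ T,
      ((if (p : ℤ) ∣ (a + DX b ν) * (a + DX b ν') * ((DX b ν : ℤ) - DX b ν') then (1 : ℝ) else 0) + 1 / p) ≤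
      4 * 4 ^ T.card * ((1 / 2) ^ j + 1 / Y) * ((Y : ℝ) ^ (s + 1)) ^ 2 := by
  classical
  obtain ⟨W, hW⟩ : ∃ W, W = ((Y : ℝ) ^ (s + 1)) ^ 2 := ⟨_, rfl⟩
  have hW0 : 0 ≤ W := by rw [hW]; positivity
  refine (sum_le_sum fun ν _ => sum_le_sum fun ν' _ => pointwise b hb T hT j hj _ _ _).trans ?_
  simp_rw [← mul_sum]
  have h1 : ∑ ν : Fin (s + 1) → Fin Y, ∑ ν' : Fin (s + 1) → Fin Y,
      ((∑ U ∈ T.powerset.filter (fun U => 2 ^ j ≤ oT b U),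
        ((if ∀ p ∈ U, (p : ℤ) ∣ (a + DX b ν) then (1 : ℝ) else 0) + (if ∀ p ∈ U, (p : ℤ) ∣ (a + DX b ν') then (1 : ℝ) else 0) +
          (if ∀ p ∈ U, (p : ℤ) ∣ ((DX b ν : ℤ) - DX b ν') then (1 : ℝ) else 0))) + (1 / 2) ^ j) =
      (∑ U ∈ T.powerset.filter (fun U => 2 ^ j ≤ oT b U),
        ((∑ ν : Fin (s + 1) → Fin Y, ∑ _ν' : Fin (s + 1) → Fin Y, (if ∀ p ∈ U, (p : ℤ) ∣ (a + DX b ν) then (1 : ℝ) else 0)) +
         (∑ _ν : Fin (s + 1) → Fin Y, ∑ ν' : Fin (s + 1) → Fin Y, (if ∀ p ∈ U, (p : ℤ) ∣ (a + DX b ν') then (1 : ℝ) else 0)) +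
         (∑ ν : Fin (s + 1) → Fin Y, ∑ ν' : Fin (s + 1) → Fin Y,
          (if ∀ p ∈ U, (p : ℤ) ∣ ((DX b ν : ℤ) - DX b ν') then (1 : ℝ) else 0)))) + (1 / 2) ^ j * W := by
    simp_rw [sum_add_distrib]
    have e1 : ∀ f : (Fin (s + 1) → Fin Y) → (Fin (s + 1) → Fin Y) → Finset ℕ → ℝ,
        ∑ ν : Fin (s + 1) → Fin Y, ∑ ν' : Fin (s + 1) → Fin Y, ∑ U ∈ T.powerset.filter (fun U => 2 ^ j ≤ oT b U), f ν ν' U =
        ∑ U ∈ T.powerset.filter (fun U => 2 ^ j ≤ oT b U), ∑ ν : Fin (s + 1) → Fin Y, ∑ ν' : Fin (s + 1) → Fin Y, f ν ν' U := by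
      intro f
      rw [sum_comm]
      refine (sum_congr rfl fun ν' _ => sum_comm).trans ?_
      rw [sum_comm]
      exact sum_congr rfl fun U _ => sum_comm
    rw [e1, e1, e1, sum_cst, sum_cst, hW]
    ring
  rw [h1]
  have h2 : ∀ U ∈ T.powerset.filter (fun U => 2 ^ j ≤ oT b U),
        ((∑ ν : Fin (s + 1) → Fin Y, ∑ _ν' : Fin (s + 1) → Fin Y, (if ∀ p ∈ U, (p : ℤ) ∣ (a + DX b ν) then (1 : ℝ) else 0)) +
         (∑ _ν : Fin (s + 1) → Fin Y, ∑ ν' : Fin (s + 1) → Fin Y, (if ∀ p ∈ U, (p : ℤ) ∣ (a + DX b ν') then (1 : ℝ) else 0)) +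
         (∑ ν : Fin (s + 1) → Fin Y, ∑ ν' : Fin (s + 1) → Fin Y,
          (if ∀ p ∈ U, (p : ℤ) ∣ ((DX b ν : ℤ) - DX b ν') then (1 : ℝ) else 0))) ≤ 3 * ((1 / 2) ^ j + 1 / Y) * W := by
    intro U hU
    rw [mem_filter, mem_powerset] at hU
    have hUg : ∀ p ∈ U, Gd b p := fun p hp => hT p (hU.1 hp)
    have g1 := cnt1 b U hUg s Y hY a
    have g2 := cnt2 b U hUg s Y hY a
    have g3 := cnt3 b U hUg s Y hY
    have g4 : (1 / (oT b U : ℝ) + 1 / Y) * W ≤ ((1 / 2) ^ j + 1 / Y) * W := by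
      refine mul_le_mul_of_nonneg_right ?_ hW0
      have g5 : 1 / (oT b U : ℝ) ≤ (1 / 2) ^ j := by
        rw [one_div_pow]
        refine one_div_le_one_div_of_le (by positivity) ?_
        exact_mod_cast hU.2
      linarith
    rw [← hW] at g1 g2 g3
    linarith
  have h3 := sum_le_sum h2
  rw [sum_const, nsmul_eq_mul] at h3
  have h4 : ((T.powerset.filter (fun U => 2 ^ j ≤ oT b U)).card : ℝ) ≤ 2 ^ T.card := by
    have h5 := card_filter_le T.powerset (fun U => 2 ^ j ≤ oT b U)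
    rw [card_powerset] at h5
    exact_mod_cast h5
  obtain ⟨q, hq⟩ : ∃ q : ℝ, q = (1 / 2) ^ j + 1 / Y := ⟨_, rfl⟩
  have hq0 : 0 ≤ q := by rw [hq]; positivity
  have hhalf : (1 / 2 : ℝ) ^ j ≤ q := by
    rw [hq]
    have : (0 : ℝ) ≤ 1 / Y := by positivity
    linarith
  rw [← hq] at h3 ⊢
  rw [← hW]
  have h5 : ((T.powerset.filter (fun U => 2 ^ j ≤ oT b U)).card : ℝ) * (3 * q * W) ≤ 2 ^ T.card * (3 * q * W) :=
    mul_le_mul_of_nonneg_right h4 (by positivity)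
  have h6 : (1 / 2 : ℝ) ^ j * W ≤ 2 ^ T.card * (q * W) := by
    have h7 : (1 : ℝ) ≤ 2 ^ T.card := one_le_pow₀ (by norm_num)
    calc (1 / 2 : ℝ) ^ j * W ≤ q * W := mul_le_mul_of_nonneg_right hhalf hW0
      _ ≤ 2 ^ T.card * (q * W) := le_mul_of_one_le_left (by positivity) h7
  have h7 : (4 : ℝ) ^ T.card = 2 ^ T.card * 2 ^ T.card := by
    rw [← mul_pow]
    norm_num
  rw [h7]
  calc (2 : ℝ) ^ T.card * (_ + (1 / 2) ^ j * W) ≤ 2 ^ T.card * (2 ^ T.card * (3 * q * W) + 2 ^ T.card * (q * W)) := by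
        refine mul_le_mul_of_nonneg_left ?_ (by positivity)
        linarith
    _ = _ := by ring

end Pool.Agent.Y542.LD
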