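import Pool.Agent.Y542.LD.G1
import Pool.Agent.Y542.LD.G2

/-!
# LD-G, part 3: the tail and the mean value (job 9765)
-/

set_option autoImplicit false

open Finset Filter

namespace Pool.Agent.Y542.LD
open Pool.Agent.Y438.LD (NC NC_le_fourier Gd oT prod_pos' cop1 cop2 oT_pos oT_dvd PT mem_PT_good sub_PT card_PT
  prod_bound fib DX)

/-- the weight of a set of primes -/
noncomputable def yT (K : ℕ) (T : Finset ℕ) : ℝ := ∏ p ∈ T, (K : ℝ) / p

lemma yT_nonneg (K : ℕ) (T : Finset ℕ) : 0 ≤ yT K T := prod_nonneg fun _ _ => by positivity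

lemma sum_powerset_yT (K : ℕ) (U : Finset ℕ) : ∑ T ∈ U.powerset, yT K T = ∏ p ∈ U, (1 + (K : ℝ) / p) := by
  classical
  rw [Finset.prod_one_add]
  rfl

lemma prod_boundK (b K m : ℕ) (hm : 1 ≤ m) (U : Finset ℕ) (hU : ∀ p ∈ U, Gd b p) (hcard : U.card ≤ 2 ^ m) :
    ∏ p ∈ U, (1 + (K : ℝ) / p) ≤ (Real.exp 6 * (m : ℝ) ^ 24) ^ K := by
  have h1 := prod_bound m hm U (fun p hp => ⟨(hU p hp).1, (hU p hp).three_le⟩) hcard
  have h2 : ∏ p ∈ U, (1 + (K : ℝ) / p) ≤ (∏ p ∈ U, (1 + 1 / ((p : ℝ) - 2))) ^ K := by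
    rw [← prod_pow]
    refine prod_le_prod (fun p _ => by positivity) fun p hp => ?_
    have h3 := (hU p hp).one_le
    have h4 : (0 : ℝ) ≤ 1 / p := by positivity
    have h5 : 1 / (p : ℝ) ≤ 1 / ((p : ℝ) - 2) := one_div_le_one_div_of_le (by linarith) (by linarith)
    have e : (K : ℝ) / p = K * (1 / p) := by ring
    rw [e]
    refine (one_add_mul_le_pow (by linarith) K).trans ?_
    exact pow_le_pow_left₀ (by linarith) (by linarith) K
  refine h2.trans (pow_le_pow_left₀ ?_ h1 K)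
  refine prod_nonneg fun p hp => ?_
  have := (hU p hp).one_le
  have : (0 : ℝ) < (p : ℝ) - 2 := by linarith
  positivity

/-- the partial sums -/
lemma partialK (b : ℕ) (hb : 2 ≤ b) (K : ℕ) (S : Finset ℕ) (hS : ∀ p ∈ S, Gd b p) (j : ℕ) :
    ∑ T ∈ S.powerset.filter (fun T => oT b T ≤ 16 ^ (j + 1)), yT K T ≤
      (Real.exp 6 * ((b : ℝ) + 8) ^ 24) ^ K * (((j + 1 : ℕ) : ℝ)) ^ (24 * K) := by
  have h1 : ∑ T ∈ S.powerset.filter (fun T => oT b T ≤ 16 ^ (j + 1)), yT K T ≤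
      ∑ T ∈ (PT b (16 ^ (j + 1))).powerset, yT K T := by
    refine sum_le_sum_of_subset_of_nonneg ?_ ?_
    · intro T hT
      rw [mem_filter, mem_powerset] at hT
      rw [mem_powerset]
      exact sub_PT b hb _ T (fun p hp => hS p (hT.1 hp)) hT.2
    · intro T _ _
      exact yT_nonneg K T
  rw [sum_powerset_yT] at h1
  have hcard : (PT b (16 ^ (j + 1))).card ≤ 2 ^ (b + 8 * (j + 1)) := by
    refine (card_PT b _ hb).trans ?_
    have h2 : b ≤ 2 ^ b := (Nat.lt_two_pow_self).le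
    have h16 : (16 : ℕ) ^ (j + 1) = 2 ^ (4 * (j + 1)) := by
      rw [pow_mul]
      norm_num
    rw [h16]
    calc 2 ^ (4 * (j + 1)) * (b * 2 ^ (4 * (j + 1))) = b * 2 ^ (8 * (j + 1)) := by
          have : 8 * (j + 1) = 4 * (j + 1) + 4 * (j + 1) := by ring
          rw [this, pow_add]
          ring
      _ ≤ 2 ^ b * 2 ^ (8 * (j + 1)) := Nat.mul_le_mul_right _ h2
      _ = 2 ^ (b + 8 * (j + 1)) := (pow_add _ _ _).symm
  have h2 := prod_boundK b K (b + 8 * (j + 1)) (by omega) (PT b (16 ^ (j + 1))) (fun p hp => mem_PT_good b _ p hp) hcard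
  refine (h1.trans h2).trans ?_
  have h3 : ((b + 8 * (j + 1) : ℕ) : ℝ) ≤ ((b : ℝ) + 8) * ((j + 1 : ℕ) : ℝ) := by
    push_cast
    have hj : (0 : ℝ) ≤ (j : ℝ) := Nat.cast_nonneg _
    have hbR : (0 : ℝ) ≤ (b : ℝ) := Nat.cast_nonneg _
    nlinarith [mul_nonneg hj hbR]
  calc (Real.exp 6 * ((b + 8 * (j + 1) : ℕ) : ℝ) ^ 24) ^ K ≤ (Real.exp 6 * (((b : ℝ) + 8) * ((j + 1 : ℕ) : ℝ)) ^ 24) ^ K := by
        refine pow_le_pow_left₀ (by positivity) ?_ K
        refine mul_le_mul_of_nonneg_left ?_ (Real.exp_pos _).le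
        exact pow_le_pow_left₀ (Nat.cast_nonneg _) h3 24
    _ = _ := by
        rw [mul_pow, mul_pow, mul_pow, mul_pow, ← pow_mul ((j + 1 : ℕ) : ℝ)]
        ring

/-- the tail of the majorant -/
lemma tail_seriesK (n : ℕ) (C ε : ℝ) (hC : 0 ≤ C) (hε : 0 < ε) : ∃ j0 : ℕ, ∀ J : ℕ,
    ∑ j ∈ Ico j0 J, (1 / 2 : ℝ) ^ j * (C * (((j + 1 : ℕ) : ℝ)) ^ n) ≤ ε := by
  set g : ℕ → ℝ := fun j => (1 / 2 : ℝ) ^ j * (C * (((j + 1 : ℕ) : ℝ)) ^ n) with hg
  have hg0 : ∀ j, 0 ≤ g j := fun j => by rw [hg]; positivity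
  have hsum : Summable g := by
    have h1 : Summable (fun m : ℕ => (m : ℝ) ^ n * (1 / 2 : ℝ) ^ m) :=
      summable_pow_mul_geometric_of_norm_lt_one n (by norm_num)
    have h2 := (summable_nat_add_iff 1).2 h1
    have h3 := h2.mul_left (2 * C)
    refine h3.congr (fun j => ?_)
    rw [hg]
    simp only [pow_succ (1 / 2 : ℝ) j]
    ring
  have ht := tendsto_sum_nat_add g
  obtain ⟨j0, hj0⟩ := (ht.eventually (gt_mem_nhds hε)).exists
  refine ⟨j0, fun J => ?_⟩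
  rw [Finset.sum_Ico_eq_sum_range]
  have h4 : Summable (fun k => g (k + j0)) := (summable_nat_add_iff j0).2 hsum
  calc ∑ i ∈ range (J - j0), g (j0 + i) = ∑ i ∈ range (J - j0), g (i + j0) :=
        sum_congr rfl (fun i _ => by rw [add_comm])
    _ ≤ ∑' k, g (k + j0) := h4.sum_le_tsum _ (fun k _ => hg0 _)
    _ ≤ ε := hj0.le

/-- the tail of Romanoff's sum -/
lemma tailK (b : ℕ) (hb : 2 ≤ b) (K : ℕ) (ε : ℝ) (hε : 0 < ε) : ∃ j0 : ℕ, ∀ S : Finset ℕ,
    (∀ p ∈ S, Gd b p) →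
    ∑ T ∈ S.powerset, (if 16 ^ j0 ≤ oT b T then yT K T * (1 / 2 : ℝ) ^ Nat.log 16 (oT b T) else 0) ≤ ε := by
  obtain ⟨j0, hj0⟩ := tail_seriesK (24 * K) ((Real.exp 6 * ((b : ℝ) + 8) ^ 24) ^ K) ε (by positivity) hε
  refine ⟨j0, fun S hS => ?_⟩
  set J : ℕ := ∑ T ∈ S.powerset, (Nat.log 16 (oT b T) + 1) with hJ
  refine le_trans ?_ (hj0 J)
  have h1 : ∀ T ∈ S.powerset, (if 16 ^ j0 ≤ oT b T then yT K T * (1 / 2 : ℝ) ^ Nat.log 16 (oT b T) else 0) ≤
      ∑ j ∈ Ico j0 J, (if oT b T ≤ 16 ^ (j + 1) then (1 / 2 : ℝ) ^ j * yT K T else 0) := by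
    intro T hT
    have hx := yT_nonneg K T
    have hnn : ∀ j ∈ Ico j0 J, (0 : ℝ) ≤
        (if oT b T ≤ 16 ^ (j + 1) then (1 / 2 : ℝ) ^ j * yT K T else 0) := by
      intro j _
      split_ifs
      · positivity
      · exact le_rfl
    by_cases h : 16 ^ j0 ≤ oT b T
    · rw [if_pos h]
      have hlog2 : oT b T < 16 ^ (Nat.log 16 (oT b T) + 1) :=
        Nat.lt_pow_succ_log_self (by norm_num) _
      have hmem : Nat.log 16 (oT b T) ∈ Ico j0 J := by
        rw [mem_Ico]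
        constructor
        · exact Nat.le_log_of_pow_le (by norm_num) h
        · rw [hJ]
          have := Finset.single_le_sum (f := fun T => Nat.log 16 (oT b T) + 1)
            (fun i _ => Nat.zero_le _) hT
          exact this
      refine le_trans ?_ (Finset.single_le_sum hnn hmem)
      rw [if_pos hlog2.le, mul_comm]
    · rw [if_neg h]
      exact sum_nonneg hnn
  refine (sum_le_sum h1).trans ?_
  rw [sum_comm]
  refine sum_le_sum (fun j _ => ?_)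
  rw [← sum_filter, ← mul_sum]
  exact mul_le_mul_of_nonneg_left (partialK b hb K S hS j) (by positivity)

/-- the powers of the logarithm are small compared with `Y` -/
lemma log_smallK (E K : ℕ) (ε : ℝ) (hε : 0 < ε) : ∀ᶠ Y : ℕ in atTop,
    (Real.exp 6 * (((E * (Nat.log 2 Y + 1) + 1 : ℕ) : ℝ)) ^ 24) ^ K * (1 / (Y : ℝ)) ≤ ε := by
  have hc : (0 : ℝ) < ε / (Real.exp 6 ^ K * (4 * E + 1) ^ (24 * K)) := by positivity
  have h1 := (Real.isLittleO_pow_log_id_atTop (n := 24 * K)).bound hc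
  have h2 := (tendsto_natCast_atTop_atTop (R := ℝ)).eventually h1
  filter_upwards [h2, eventually_ge_atTop 3] with Y hY hY3
  have hYR : (3 : ℝ) ≤ (Y : ℝ) := by exact_mod_cast hY3
  have hY0 : (0 : ℝ) < (Y : ℝ) := by linarith
  have hlog1 : 1 ≤ Real.log Y := by
    rw [Real.le_log_iff_exp_le hY0]
    have := Real.exp_one_lt_d9
    linarith
  have h2 : (Nat.log 2 Y : ℝ) ≤ Real.log Y / Real.log 2 := by
    have := Real.natLog_le_logb Y 2
    rw [Real.logb] at this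
    exact_mod_cast this
  have h3 : Real.log Y / Real.log 2 ≤ 2 * Real.log Y := by
    have hl2 := Real.log_two_gt_d9
    rw [div_le_iff₀ (by linarith)]
    nlinarith
  have h4 : (((E * (Nat.log 2 Y + 1) + 1 : ℕ) : ℝ)) ≤ (4 * E + 1) * Real.log Y := by
    push_cast
    have hE : (0 : ℝ) ≤ (E : ℝ) := Nat.cast_nonneg _
    have h5 : (Nat.log 2 Y : ℝ) + 1 ≤ 4 * Real.log Y := by linarith
    have h6 := mul_le_mul_of_nonneg_left h5 hE
    linarith
  rw [id, Real.norm_of_nonneg hY0.le, Real.norm_of_nonneg (by positivity)] at hY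
  have h7 : (((E * (Nat.log 2 Y + 1) + 1 : ℕ) : ℝ)) ^ (24 * K) ≤
      (4 * E + 1) ^ (24 * K) * (ε / (Real.exp 6 ^ K * (4 * E + 1) ^ (24 * K)) * Y) := by
    refine (pow_le_pow_left₀ (Nat.cast_nonneg _) h4 (24 * K)).trans ?_
    rw [mul_pow]
    exact mul_le_mul_of_nonneg_left hY (by positivity)
  rw [mul_one_div, div_le_iff₀ hY0, mul_pow, ← pow_mul]
  calc Real.exp 6 ^ K * (((E * (Nat.log 2 Y + 1) + 1 : ℕ) : ℝ)) ^ (24 * K)
      ≤ Real.exp 6 ^ K * ((4 * E + 1) ^ (24 * K) * (ε / (Real.exp 6 ^ K * (4 * E + 1) ^ (24 * K)) * Y)) :=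
        mul_le_mul_of_nonneg_left h7 (by positivity)
    _ = ε * Y := by
        field_simp

/-- the mean value -/
theorem main (b : ℕ) (hb : 2 ≤ b) (C E : ℕ) (η : ℝ) (hη : 0 < η) :
    ∃ r0 : ℕ, ∀ r : ℕ, r0 ≤ r → ∃ Y0 : ℕ, ∀ Y : ℕ, Y0 ≤ Y → ∀ z : ℕ, (z : ℝ) ≤ (Y : ℝ) ^ E →
    ∀ a : ℤ, ∀ g : ℕ → ℤ → ℤ → ℝ,
    (∀ p ∈ ((Icc 1 z).filter Nat.Prime).filter (fun p => ¬ p ∣ b * (b - 1)),
      (∀ x x' y y' : ℤ, (p : ℤ) ∣ x - y → (p : ℤ) ∣ x' - y' → g p x x' = g p y y') ∧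
      (∀ x x' : ℤ, |g p x x'| ≤ C / p * ((if (p : ℤ) ∣ (a + x) * (a + x') * (x - x') then 1 else 0) + 1 / p)) ∧
      ∑ x ∈ range p, ∑ x' ∈ range p, g p (x : ℤ) (x' : ℤ) = 0) →
    |∑ ν : Fin r → Fin Y, ∑ ν' : Fin r → Fin Y,
      ∏ p ∈ ((Icc 1 z).filter Nat.Prime).filter (fun p => ¬ p ∣ b * (b - 1)),
      (1 + g p (DX b ν : ℤ) (DX b ν' : ℤ)) - ((Y : ℝ) ^ r) ^ 2| ≤ η * ((Y : ℝ) ^ r) ^ 2 := by
  classical
  obtain ⟨K, hK⟩ : ∃ K, K = 4 * C := ⟨_, rfl⟩
  obtain ⟨j0, hj0⟩ := tailK b hb K (η / 12) (by positivity)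
  set F := (PT b (16 ^ j0)).powerset.erase ∅ with hF
  have hFgood : ∀ T ∈ F, ∀ p ∈ T, Gd b p := by
    intro T hT p hp
    rw [hF, mem_erase, mem_powerset] at hT
    exact mem_PT_good b _ p (hT.2 hp)
  have hFne : ∀ T ∈ F, T.Nonempty := by
    intro T hT
    rw [hF, mem_erase] at hT
    exact nonempty_iff_ne_empty.2 hT.1
  set ε : ℝ := η / (3 * (F.card + 1)) with hε
  have hε0 : 0 < ε := by rw [hε]; positivity
  have hεF : F.card * ε ≤ η / 3 := by
    rw [hε, mul_div_assoc', div_le_div_iff₀ (by positivity) (by norm_num)]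
    nlinarith
  have hhead : ∀ᶠ r : ℕ in atTop, ∀ᶠ Y : ℕ in atTop, ∀ T ∈ F, ∀ g : ℕ → ℤ → ℤ → ℝ,
      (∀ p ∈ T, (∀ x x' y y' : ℤ, (p : ℤ) ∣ x - y → (p : ℤ) ∣ x' - y' → g p x x' = g p y y') ∧
        (∀ x x', |g p x x'| ≤ 2 * C) ∧ ∑ x ∈ range p, ∑ x' ∈ range p, g p x x' = 0) →
      |∑ ν : Fin r → Fin Y, ∑ ν' : Fin r → Fin Y, ∏ p ∈ T, g p (DX b ν) (DX b ν')| ≤ ε * ((Y : ℝ) ^ r) ^ 2 := by
    have h1 := (Filter.eventually_all_finset F).2 (fun T hT => headT b hb T (hFgood T hT) (hFne T hT) C ε hε0)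
    filter_upwards [h1] with r hr
    exact (Filter.eventually_all_finset F).2 hr
  obtain ⟨r0, hr0⟩ := eventually_atTop.1 hhead
  refine ⟨max r0 1, fun r hr => ?_⟩
  have hr1 := hr0 r ((le_max_left _ _).trans hr)
  have hrp : 1 ≤ r := (le_max_right _ _).trans hr
  obtain ⟨s, rfl⟩ : ∃ s, r = s + 1 := ⟨r - 1, by omega⟩
  obtain ⟨Y0, hY0⟩ := eventually_atTop.1
    (hr1.and ((log_smallK E K (η / 12) (by positivity)).and (eventually_ge_atTop 1)))
  refine ⟨Y0, fun Y hY z hz a g hg => ?_⟩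
  obtain ⟨hheadY, hlog, hY1⟩ := hY0 Y hY
  set S := ((Icc 1 z).filter Nat.Prime).filter (fun p => ¬ p ∣ b * (b - 1)) with hSdef
  have hS : ∀ p ∈ S, Gd b p := by
    intro p hp
    rw [hSdef, mem_filter, mem_filter] at hp
    exact ⟨hp.1.2, hp.2⟩
  obtain ⟨W, hW⟩ : ∃ W : ℝ, W = ((Y : ℝ) ^ (s + 1)) ^ 2 := ⟨_, rfl⟩
  have hW0 : 0 ≤ W := by rw [hW]; positivity
  rw [← hW]
  obtain ⟨G, hG⟩ : ∃ G : Finset ℕ → ℝ, G = fun T => ∑ ν : Fin (s + 1) → Fin Y, ∑ ν' : Fin (s + 1) → Fin Y,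
    ∏ p ∈ T, g p (DX b ν : ℤ) (DX b ν' : ℤ) := ⟨_, rfl⟩
  -- the expansion
  have h1 : ∑ ν : Fin (s + 1) → Fin Y, ∑ ν' : Fin (s + 1) → Fin Y, ∏ p ∈ S, (1 + g p (DX b ν : ℤ) (DX b ν' : ℤ)) =
      ∑ T ∈ S.powerset, G T := by
    rw [hG]
    simp only [Finset.prod_one_add]
    refine (sum_congr rfl fun ν _ => sum_comm).trans ?_
    rw [sum_comm]
  have h2 : G ∅ = W := by
    rw [hG]
    simp only [prod_empty]
    rw [sum_cst, sum_cst, hW]
    ring
  have h3 : ∑ T ∈ S.powerset, G T = W + ∑ T ∈ S.powerset.erase ∅, G T := by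
    rw [← h2, add_comm, sum_erase_add _ _ (empty_mem_powerset S)]
  rw [h1, h3, add_sub_cancel_left]
  refine (abs_sum_le_sum_abs _ _).trans ?_
  -- the bound for each set
  have hb2 : ∀ T ∈ S.powerset.erase ∅, |G T| ≤ ((if T ∈ F then ε else 0) +
      4 * (if 16 ^ j0 ≤ oT b T then yT K T * (1 / 2 : ℝ) ^ Nat.log 16 (oT b T) else 0) + 4 * (yT K T * (1 / (Y : ℝ)))) * W := by
    intro T hT
    rw [mem_erase, mem_powerset] at hT
    have hTg : ∀ p ∈ T, Gd b p := fun p hp => hS p (hT.2 hp)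
    have hx := yT_nonneg K T
    have hYi : (0 : ℝ) ≤ 1 / (Y : ℝ) := by positivity
    have hp1 : ∀ p ∈ T, (1 : ℝ) ≤ p := fun p hp => by exact_mod_cast (hTg p hp).1.one_le
    by_cases h : T ∈ F
    · rw [if_pos h]
      have h4 := hheadY T h g (fun p hp => by
        obtain ⟨g1, g2, g3⟩ := hg p (hT.2 hp)
        refine ⟨g1, fun x x' => (g2 x x').trans ?_, g3⟩
        have h5 := hp1 p hp
        have h6 : 1 / (p : ℝ) ≤ 1 := by rw [div_le_one (by linarith)]; exact h5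
        have h7 : (C : ℝ) / p ≤ C := div_le_self (Nat.cast_nonneg _) h5
        have h8 : (if (p : ℤ) ∣ (a + x) * (a + x') * (x - x') then (1 : ℝ) else 0) ≤ 1 := by split_ifs <;> norm_num
        calc (C : ℝ) / p * ((if (p : ℤ) ∣ (a + x) * (a + x') * (x - x') then (1 : ℝ) else 0) + 1 / p) ≤ C * (1 + 1) := by
              refine mul_le_mul h7 (add_le_add h8 h6) ?_ (Nat.cast_nonneg _)
              have : (0 : ℝ) ≤ 1 / p := by positivity
              split_ifs <;> linarith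
          _ = 2 * C := by ring)
      rw [← hW] at h4
      have h5 : |G T| ≤ ε * W := by
        rw [hG]
        exact h4
      refine h5.trans (mul_le_mul_of_nonneg_right ?_ hW0)
      have h6 : (0 : ℝ) ≤ (if 16 ^ j0 ≤ oT b T then yT K T * (1 / 2 : ℝ) ^ Nat.log 16 (oT b T) else 0) := by
        split_ifs
        · positivity
        · exact le_rfl
      have h7 : 0 ≤ yT K T * (1 / (Y : ℝ)) := by positivity
      linarith
    · rw [if_neg h]
      have ho : 16 ^ j0 ≤ oT b T := by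
        by_contra hcon
        exact h (mem_erase.2 ⟨hT.1, mem_powerset.2 (sub_PT b hb _ T hTg (by omega))⟩)
      rw [if_pos ho]
      have h4 := meanT b hb T hTg (Nat.log 16 (oT b T)) (Nat.pow_log_le_self 16 (oT_pos b T hTg).ne') s Y hY1 a
      rw [← hW] at h4
      have h5 : |G T| ≤ (∏ p ∈ T, (C : ℝ) / p) * ∑ ν : Fin (s + 1) → Fin Y, ∑ ν' : Fin (s + 1) → Fin Y, ∏ p ∈ T,
          ((if (p : ℤ) ∣ (a + DX b ν) * (a + DX b ν') * ((DX b ν : ℤ) - DX b ν') then (1 : ℝ) else 0) + 1 / p) := by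
        rw [hG]
        refine (abs_sum_le_sum_abs _ _).trans ?_
        rw [mul_sum]
        refine sum_le_sum fun ν _ => ?_
        refine (abs_sum_le_sum_abs _ _).trans ?_
        rw [mul_sum]
        refine sum_le_sum fun ν' _ => ?_
        rw [abs_prod, ← prod_mul_distrib]
        exact prod_le_prod (fun p _ => abs_nonneg _) fun p hp => (hg p (hT.2 hp)).2.1 _ _
      have hC0 : (0 : ℝ) ≤ ∏ p ∈ T, (C : ℝ) / p := prod_nonneg fun _ _ => by positivity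
      refine (h5.trans (mul_le_mul_of_nonneg_left h4 hC0)).trans (le_of_eq ?_)
      have h6 : yT K T = (∏ p ∈ T, (C : ℝ) / p) * 4 ^ T.card := by
        unfold yT
        rw [← prod_const, ← prod_mul_distrib]
        refine prod_congr rfl fun p _ => ?_
        rw [hK]
        push_cast
        ring
      rw [h6]
      ring
  refine (sum_le_sum hb2).trans ?_
  rw [← sum_mul]
  refine mul_le_mul_of_nonneg_right ?_ hW0
  rw [sum_add_distrib, sum_add_distrib, ← mul_sum, ← mul_sum]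
  have hsub : S.powerset.erase ∅ ⊆ S.powerset := erase_subset _ _
  have hp1 : ∑ T ∈ S.powerset.erase ∅, (if T ∈ F then ε else 0) ≤ η / 3 := by
    rw [← sum_filter, sum_const, nsmul_eq_mul]
    refine le_trans ?_ hεF
    refine mul_le_mul_of_nonneg_right ?_ hε0.le
    have : ((S.powerset.erase ∅).filter (fun T => T ∈ F)).card ≤ F.card :=
      card_le_card fun T hT => (mem_filter.1 hT).2
    exact_mod_cast this
  have hp2 : ∑ T ∈ S.powerset.erase ∅,
      (if 16 ^ j0 ≤ oT b T then yT K T * (1 / 2 : ℝ) ^ Nat.log 16 (oT b T) else 0) ≤ η / 12 := by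
    refine le_trans (sum_le_sum_of_subset_of_nonneg hsub fun T _ _ => ?_) (hj0 S hS)
    have := yT_nonneg K T
    split_ifs
    · positivity
    · exact le_rfl
  have hp3 : ∑ T ∈ S.powerset.erase ∅, yT K T * (1 / (Y : ℝ)) ≤ η / 12 := by
    refine le_trans (sum_le_sum_of_subset_of_nonneg hsub fun T _ _ => ?_) (le_trans ?_ hlog)
    · have := yT_nonneg K T
      positivity
    · rw [← sum_mul, sum_powerset_yT]
      refine mul_le_mul_of_nonneg_right ?_ (by positivity)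
      refine prod_boundK b K _ (by omega) S hS ?_
      have hc1 : S.card ≤ z := by
        rw [hSdef]
        refine (card_filter_le _ _).trans ((card_filter_le _ _).trans ?_)
        rw [Nat.card_Icc, Nat.add_sub_cancel]
      have hc2 : z ≤ Y ^ E := by exact_mod_cast hz
      have hc3 : Y ^ E ≤ (2 ^ (Nat.log 2 Y + 1)) ^ E :=
        Nat.pow_le_pow_left (Nat.lt_pow_succ_log_self (by norm_num) _).le E
      calc S.card ≤ (2 ^ (Nat.log 2 Y + 1)) ^ E := hc1.trans (hc2.trans hc3)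
        _ = 2 ^ (E * (Nat.log 2 Y + 1)) := by rw [← pow_mul, mul_comm]
        _ ≤ 2 ^ (E * (Nat.log 2 Y + 1) + 1) := Nat.pow_le_pow_right (by norm_num) (by omega)
  linarith

end Pool.Agent.Y542.LD
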