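import Pool.Agent.Y438.LD.A4

/-!
# LD-G, part 1: the finitely many sets of the head (job 9765)
-/

set_option autoImplicit false

open Finset Filter

namespace Pool.Agent.Y542.LD
open Pool.Agent.Y438.LD (NC NC_le_fourier Gd oT prod_pos' cop1 cop2 oT_pos oT_dvd PT mem_PT_good sub_PT card_PT
  prod_bound fib DX)

/-- sums over the fibres -/
lemma fib1 {I X : Type*} [Fintype I] [Fintype X] [DecidableEq X] (f : I → X) (G : X → ℝ) :
    ∑ i, G (f i) = ∑ x, G x * ∑ i, (if f i = x then (1 : ℝ) else 0) := by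
  simp_rw [mul_sum, mul_ite, mul_one, mul_zero]
  rw [sum_comm]
  refine sum_congr rfl fun i _ => ?_
  simp

lemma fib2 {I X : Type*} [Fintype I] [Fintype X] [DecidableEq X] (f : I → X) (F : X → X → ℝ) :
    ∑ i, ∑ i', F (f i) (f i') = ∑ x, ∑ x', F x x' *
      ((∑ i, (if f i = x then (1 : ℝ) else 0)) * (∑ i, (if f i = x' then (1 : ℝ) else 0))) := by
  rw [fib1 f (fun x => ∑ i', F x (f i'))]
  refine sum_congr rfl fun x _ => ?_
  rw [fib1 f (F x), sum_mul]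
  refine sum_congr rfl fun x' _ => ?_
  ring

/-- the discrepancy from the second moment -/
lemma disc {X : Type*} [Fintype X] (N : X → ℝ) (M k : ℝ) (d : ℕ) (hd : 0 < d) (hX : Fintype.card X = d)
    (hk : 0 ≤ k) (hM : 0 ≤ M) (h1 : ∑ x, N x = M) (h2 : ∑ x, N x ^ 2 ≤ (1 / d + k ^ 2) * M ^ 2) (x : X) :
    |N x - M / d| ≤ k * M := by
  have hd0 : (0 : ℝ) < d := by exact_mod_cast hd
  have h3 : ∑ x, (N x - M / d) ^ 2 ≤ (k * M) ^ 2 := by
    have h4 : ∑ x, (N x - M / d) ^ 2 = ∑ x, N x ^ 2 - 2 * (M / d) * ∑ x, N x + d * (M / d) ^ 2 := by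
      have h5 : ∑ _x : X, (M / d) ^ 2 = d * (M / d) ^ 2 := by
        rw [sum_const, card_univ, hX, nsmul_eq_mul]
      rw [← h5, mul_sum, ← sum_sub_distrib, ← sum_add_distrib]
      exact sum_congr rfl fun x _ => by ring
    rw [h4, h1]
    have h6 : (1 / (d : ℝ) + k ^ 2) * M ^ 2 - 2 * (M / d) * M + d * (M / d) ^ 2 = (k * M) ^ 2 := by
      field_simp
      ring
    linarith
  have h4 := single_le_sum (f := fun x => (N x - M / d) ^ 2) (fun _ _ => sq_nonneg _) (mem_univ x)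
  exact abs_le_of_sq_le_sq (h4.trans h3) (by positivity)

lemma head_sum {X : Type*} [Fintype X] (N : X → ℝ) (M k B : ℝ) (d : ℕ) (hd : 0 < d) (hX : Fintype.card X = d)
    (hk : 0 ≤ k) (hM : 0 ≤ M) (hN : ∀ x, 0 ≤ N x) (h1 : ∑ x, N x = M)
    (h2 : ∑ x, N x ^ 2 ≤ (1 / d + k ^ 2) * M ^ 2) (F : X → X → ℝ) (hF : ∀ x x', |F x x'| ≤ B)
    (hF0 : ∑ x, ∑ x', F x x' = 0) :
    |∑ x, ∑ x', F x x' * (N x * N x')| ≤ (d : ℝ) ^ 2 * B * (2 * k) * M ^ 2 := by
  have hd1 : (1 : ℝ) ≤ d := by exact_mod_cast hd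
  have hd0 : (0 : ℝ) < d := by linarith
  have hNM : ∀ x, N x ≤ M := fun x => by
    rw [← h1]
    exact single_le_sum (f := N) (fun x _ => hN x) (mem_univ x)
  have hm0 : 0 ≤ M / d := by positivity
  have hm1 : M / d ≤ M := div_le_self hM hd1
  have hdd : ∀ x x', |N x * N x' - (M / d) ^ 2| ≤ 2 * k * M ^ 2 := by
    intro x x'
    have e1 : N x * N x' - (M / d) ^ 2 = (N x - M / d) * N x' + (M / d) * (N x' - M / d) := by ring
    rw [e1]
    refine (abs_add_le _ _).trans ?_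
    rw [abs_mul, abs_mul, abs_of_nonneg (hN x'), abs_of_nonneg hm0]
    have a1 := disc N M k d hd hX hk hM h1 h2 x
    have a2 := disc N M k d hd hX hk hM h1 h2 x'
    have b1 : |N x - M / d| * N x' ≤ k * M * M := mul_le_mul a1 (hNM x') (hN x') (by positivity)
    have b2 : M / d * |N x' - M / d| ≤ M * (k * M) := mul_le_mul hm1 a2 (abs_nonneg _) hM
    nlinarith
  have h3 : ∑ x, ∑ x', F x x' * (N x * N x') = ∑ x, ∑ x', F x x' * (N x * N x' - (M / d) ^ 2) := by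
    have h4 : ∑ x, ∑ x', F x x' * (M / d) ^ 2 = 0 := by
      simp_rw [← sum_mul]
      rw [hF0, zero_mul]
    have h5 : ∑ x, ∑ x', F x x' * (N x * N x' - (M / d) ^ 2) =
        ∑ x, ∑ x', F x x' * (N x * N x') - ∑ x, ∑ x', F x x' * (M / d) ^ 2 := by
      rw [← sum_sub_distrib]
      refine sum_congr rfl fun x _ => ?_
      rw [← sum_sub_distrib]
      exact sum_congr rfl fun x' _ => by ring
    rw [h5, h4, sub_zero]
  rw [h3]
  refine (abs_sum_le_sum_abs _ _).trans ?_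
  have h6 : ∀ x ∈ (univ : Finset X), |∑ x', F x x' * (N x * N x' - (M / d) ^ 2)| ≤ d * (B * (2 * k * M ^ 2)) := by
    intro x _
    refine (abs_sum_le_sum_abs _ _).trans ?_
    have h7 : ∀ x' ∈ (univ : Finset X), |F x x' * (N x * N x' - (M / d) ^ 2)| ≤ B * (2 * k * M ^ 2) := by
      intro x' _
      rw [abs_mul]
      exact mul_le_mul (hF x x') (hdd x x') (abs_nonneg _) ((abs_nonneg _).trans (hF x x'))
    refine (sum_le_sum h7).trans (le_of_eq ?_)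
    rw [sum_const, card_univ, hX, nsmul_eq_mul]
  refine (sum_le_sum h6).trans (le_of_eq ?_)
  rw [sum_const, card_univ, hX, nsmul_eq_mul]
  ring

lemma sum_zmod (p : ℕ) (hp : 0 < p) (f : ℕ → ℝ) [NeZero p] : ∑ x ∈ range p, f x = ∑ x : ZMod p, f x.val := by
  obtain ⟨n, rfl⟩ : ∃ n, p = n + 1 := ⟨p - 1, by omega⟩
  exact (Fin.sum_univ_eq_sum_range f (n + 1)).symm

lemma per1 (p e : ℕ) (hp : 0 < p) (hcop : Nat.Coprime e p) (h : ℤ → ℝ)
    (hper : ∀ x y : ℤ, (p : ℤ) ∣ x - y → h x = h y) (c : ℤ) :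
    ∑ k ∈ range p, h (c + e * k) = ∑ k ∈ range p, h k := by
  have : NeZero p := ⟨hp.ne'⟩
  rw [sum_zmod p hp (fun k => h (c + e * (k : ℤ))), sum_zmod p hp (fun k => h (k : ℤ))]
  refine Fintype.sum_equiv ((Units.mulLeft (ZMod.unitOfCoprime e hcop)).trans (Equiv.addLeft (c : ZMod p))) _ _
    (fun x => ?_)
  apply hper
  refine (ZMod.intCast_eq_intCast_iff_dvd_sub _ _ p).1 ?_
  simp

lemma per2 (p e : ℕ) (hp : 0 < p) (hcop : Nat.Coprime e p) (g : ℤ → ℤ → ℝ)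
    (hg : ∀ x x' y y' : ℤ, (p : ℤ) ∣ x - y → (p : ℤ) ∣ x' - y' → g x x' = g y y') (c c' : ℤ) :
    ∑ k ∈ range p, ∑ k' ∈ range p, g (c + e * k) (c' + e * k') = ∑ k ∈ range p, ∑ k' ∈ range p, g k k' := by
  rw [per1 p e hp hcop (fun x => ∑ k' ∈ range p, g x (c' + e * k'))
    (fun x y h => sum_congr rfl fun k' _ => hg _ _ _ _ h (by simp)) c]
  refine sum_congr rfl fun k _ => ?_
  exact per1 p e hp hcop (fun x => g k x) (fun x y h => hg _ _ _ _ (by simp) h) c'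

/-- the sum over all the pairs of residues vanishes -/
lemma crt (T : Finset ℕ) (hT : ∀ p ∈ T, p.Prime) (g : ℕ → ℤ → ℤ → ℝ)
    (hg : ∀ p ∈ T, ∀ x x' y y' : ℤ, (p : ℤ) ∣ x - y → (p : ℤ) ∣ x' - y' → g p x x' = g p y y')
    (p : ℕ) (hp : p ∈ T) (h0 : ∑ x ∈ range p, ∑ x' ∈ range p, g p x x' = 0) (d : ℕ) (hd : d = ∏ q ∈ T, q)
    [NeZero d] :
    ∑ x : ZMod d, ∑ x' : ZMod d, ∏ q ∈ T, g q x.val x'.val = 0 := by
  obtain ⟨e, he⟩ : ∃ e, e = ∏ q ∈ T.erase p, q := ⟨_, rfl⟩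
  have hpp := hT p hp
  have hcop : Nat.Coprime e p := by
    rw [he]
    refine Nat.Coprime.prod_left fun q hq => ?_
    rw [mem_erase] at hq
    exact (Nat.coprime_primes (hT q hq.2) hpp).2 hq.1
  have hqd : ∀ q ∈ T, (q : ℤ) ∣ (d : ℤ) := fun q hq => by
    rw [hd]
    exact_mod_cast Finset.dvd_prod_of_mem _ hq
  have hval : ∀ (x : ZMod d) (k : ℕ), (d : ℤ) ∣ (((x + ((e * k : ℕ) : ZMod d)).val : ℕ) : ℤ) - ((x.val : ℤ) + e * k) := by
    intro x k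
    refine (ZMod.intCast_eq_intCast_iff_dvd_sub _ _ d).1 ?_
    simp
  have hS : ∀ k k' : ℕ, ∑ x : ZMod d, ∑ x' : ZMod d, ∏ q ∈ T, g q x.val x'.val =
      ∑ x : ZMod d, ∑ x' : ZMod d, (∏ q ∈ T.erase p, g q x.val x'.val) * g p (x.val + e * k) (x'.val + e * k') := by
    intro k k'
    rw [← Equiv.sum_comp (Equiv.addRight ((e * k : ℕ) : ZMod d))]
    refine sum_congr rfl fun x _ => ?_
    rw [← Equiv.sum_comp (Equiv.addRight ((e * k' : ℕ) : ZMod d))]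
    refine sum_congr rfl fun x' _ => ?_
    rw [← prod_erase_mul T _ hp]
    simp only [Equiv.coe_addRight]
    congr 1
    · refine prod_congr rfl fun q hq => ?_
      rw [mem_erase] at hq
      have hqe : (q : ℤ) ∣ (e : ℤ) := by
        rw [he]
        exact_mod_cast Finset.dvd_prod_of_mem _ (mem_erase.2 hq)
      refine hg q hq.2 _ _ _ _ ?_ ?_
      · have h1 := (hqd q hq.2).trans (hval x k)
        have h2 : (q : ℤ) ∣ (e : ℤ) * k := hqe.mul_right _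
        have h3 := dvd_add h1 h2
        have e3 : ((x + ((e * k : ℕ) : ZMod d)).val : ℤ) - ((x.val : ℤ) + e * k) + (e : ℤ) * k =
          ((x + ((e * k : ℕ) : ZMod d)).val : ℤ) - (x.val : ℤ) := by ring
        rwa [e3] at h3
      · have h1 := (hqd q hq.2).trans (hval x' k')
        have h2 : (q : ℤ) ∣ (e : ℤ) * k' := hqe.mul_right _
        have h3 := dvd_add h1 h2
        have e3 : ((x' + ((e * k' : ℕ) : ZMod d)).val : ℤ) - ((x'.val : ℤ) + e * k') + (e : ℤ) * k' =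
          ((x' + ((e * k' : ℕ) : ZMod d)).val : ℤ) - (x'.val : ℤ) := by ring
        rwa [e3] at h3
    · exact hg p hp _ _ _ _ ((hqd p hp).trans (hval x k)) ((hqd p hp).trans (hval x' k'))
  obtain ⟨S, hSd⟩ : ∃ S, S = ∑ x : ZMod d, ∑ x' : ZMod d, ∏ q ∈ T, g q x.val x'.val := ⟨_, rfl⟩
  rw [← hSd] at hS ⊢
  have h1 : ∑ k ∈ range p, ∑ k' ∈ range p, S = 0 := by
    have h2 : ∑ k ∈ range p, ∑ k' ∈ range p, S = ∑ k ∈ range p, ∑ k' ∈ range p,
        ∑ x : ZMod d, ∑ x' : ZMod d, (∏ q ∈ T.erase p, g q x.val x'.val) * g p (x.val + e * k) (x'.val + e * k') :=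
      sum_congr rfl fun k _ => sum_congr rfl fun k' _ => hS k k'
    rw [h2]
    have h3 : ∀ k ∈ range p, ∑ k' ∈ range p, ∑ x : ZMod d, ∑ x' : ZMod d,
        (∏ q ∈ T.erase p, g q x.val x'.val) * g p (x.val + e * k) (x'.val + e * k') =
        ∑ x : ZMod d, ∑ x' : ZMod d, ∑ k' ∈ range p,
          (∏ q ∈ T.erase p, g q x.val x'.val) * g p (x.val + e * k) (x'.val + e * k') := by
      intro k _
      rw [sum_comm]
      exact sum_congr rfl fun x _ => sum_comm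
    rw [sum_congr rfl h3, sum_comm]
    refine sum_eq_zero fun x _ => ?_
    rw [sum_comm]
    refine sum_eq_zero fun x' _ => ?_
    have h4 : ∀ k ∈ range p, ∑ k' ∈ range p,
        (∏ q ∈ T.erase p, g q x.val x'.val) * g p (x.val + e * k) (x'.val + e * k') =
        (∏ q ∈ T.erase p, g q x.val x'.val) * ∑ k' ∈ range p, g p (x.val + e * k) (x'.val + e * k') :=
      fun k _ => by rw [mul_sum]
    rw [sum_congr rfl h4, ← mul_sum, per2 p e hpp.pos hcop (g p) (hg p hp) x.val x'.val, h0, mul_zero]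
  rw [sum_const, sum_const, card_range, nsmul_eq_mul, nsmul_eq_mul] at h1
  have hp0 : (p : ℝ) ≠ 0 := by exact_mod_cast hpp.ne_zero
  rcases mul_eq_zero.1 h1 with h2 | h2
  · exact absurd h2 hp0
  · exact (mul_eq_zero.1 h2).resolve_left hp0

/-- the head -/
theorem headT (b : ℕ) (hb : 2 ≤ b) (T : Finset ℕ) (hT : ∀ p ∈ T, Gd b p) (hne : T.Nonempty) (C : ℕ) (ε : ℝ)
    (hε : 0 < ε) : ∀ᶠ r : ℕ in atTop, ∀ᶠ Y : ℕ in atTop, ∀ g : ℕ → ℤ → ℤ → ℝ,
    (∀ p ∈ T, (∀ x x' y y' : ℤ, (p : ℤ) ∣ x - y → (p : ℤ) ∣ x' - y' → g p x x' = g p y y') ∧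
      (∀ x x', |g p x x'| ≤ 2 * C) ∧ ∑ x ∈ range p, ∑ x' ∈ range p, g p x x' = 0) →
    |∑ ν : Fin r → Fin Y, ∑ ν' : Fin r → Fin Y, ∏ p ∈ T, g p (DX b ν) (DX b ν')| ≤ ε * ((Y : ℝ) ^ r) ^ 2 := by
  obtain ⟨d, hd⟩ : ∃ d, d = ∏ p ∈ T, p := ⟨_, rfl⟩
  have hd0 : 0 < d := by rw [hd]; exact prod_pos' b T hT
  have : NeZero d := ⟨hd0.ne'⟩
  obtain ⟨κ, hκ0, hκ1, Y0, hY0⟩ := NC_le_fourier b d hd0 (by rw [hd]; exact cop1 b T hT)
    (by rw [hd]; exact cop2 b hb T hT)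
  obtain ⟨B, hB⟩ : ∃ B : ℝ, B = (2 * (C : ℝ)) ^ T.card := ⟨_, rfl⟩
  have ht : Tendsto (fun r : ℕ => (d : ℝ) ^ 2 * B * (2 * κ ^ r)) atTop (nhds ((d : ℝ) ^ 2 * B * (2 * 0))) :=
    ((tendsto_pow_atTop_nhds_zero_of_lt_one hκ0 hκ1).const_mul 2).const_mul _
  rw [mul_zero, mul_zero] at ht
  filter_upwards [ht.eventually (gt_mem_nhds hε)] with r hr
  filter_upwards [eventually_ge_atTop Y0] with Y hY
  intro g hg
  obtain ⟨f, hf⟩ : ∃ f : (Fin r → Fin Y) → ZMod d, f = fun ν => ∑ j, (b : ZMod d) ^ ((ν j : ℕ) + 1) := ⟨_, rfl⟩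
  have hfD : ∀ ν : Fin r → Fin Y, (d : ℤ) ∣ (DX b ν : ℤ) - ((f ν).val : ℤ) := by
    intro ν
    refine (ZMod.intCast_eq_intCast_iff_dvd_sub _ _ d).1 ?_
    rw [hf]
    unfold DX
    simp
  have hqd : ∀ q ∈ T, (q : ℤ) ∣ (d : ℤ) := fun q hq => by
    rw [hd]
    exact_mod_cast Finset.dvd_prod_of_mem _ hq
  have h1 : ∑ ν : Fin r → Fin Y, ∑ ν' : Fin r → Fin Y, ∏ p ∈ T, g p (DX b ν) (DX b ν') =
      ∑ ν : Fin r → Fin Y, ∑ ν' : Fin r → Fin Y,
        (fun x x' : ZMod d => ∏ p ∈ T, g p (x.val : ℤ) (x'.val : ℤ)) (f ν) (f ν') := by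
    refine sum_congr rfl fun ν _ => sum_congr rfl fun ν' _ => prod_congr rfl fun p hp => ?_
    exact (hg p hp).1 _ _ _ _ ((hqd p hp).trans (hfD ν)) ((hqd p hp).trans (hfD ν'))
  rw [h1, fib2 f (fun x x' : ZMod d => ∏ p ∈ T, g p (x.val : ℤ) (x'.val : ℤ))]
  have hcard : ∑ x, ∑ i, (if f i = x then (1 : ℝ) else 0) = (Y : ℝ) ^ r := by
    have h2 := fib1 f (fun _ => (1 : ℝ))
    simp only [one_mul] at h2
    rw [← h2, sum_const, card_univ, nsmul_eq_mul, mul_one]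
    simp
  have hNC : ∑ x, (∑ i, (if f i = x then (1 : ℝ) else 0)) ^ 2 = NC b d r Y := by
    have h2 := fib2 f (fun x x' => if x = x' then (1 : ℝ) else 0)
    have h3 : NC b d r Y = ∑ ν : Fin r → Fin Y, ∑ ν' : Fin r → Fin Y, (if f ν = f ν' then (1 : ℝ) else 0) := by
      rw [hf]
      rfl
    rw [h3, h2]
    refine sum_congr rfl fun x _ => ?_
    simp only [ite_mul, one_mul, zero_mul]
    rw [sum_ite_eq, if_pos (mem_univ x)]
    ring
  have h4 := head_sum (fun x => ∑ i, (if f i = x then (1 : ℝ) else 0)) ((Y : ℝ) ^ r) (κ ^ r) B d hd0 (ZMod.card d)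
    (by positivity) (by positivity) (fun x => sum_nonneg fun i _ => by split_ifs <;> norm_num) hcard
    (by rw [hNC]
        have h5 := hY0 Y hY r
        rwa [mul_comm 2 r, pow_mul] at h5)
    (fun x x' : ZMod d => ∏ p ∈ T, g p (x.val : ℤ) (x'.val : ℤ))
    (by
      intro x x'
      rw [abs_prod, hB, ← prod_const]
      exact prod_le_prod (fun p _ => abs_nonneg _) fun p hp => (hg p hp).2.1 _ _)
    (by
      obtain ⟨p, hp⟩ := hne
      exact crt T (fun p hp => (hT p hp).1) g (fun p hp => (hg p hp).1) p hp (hg p hp).2.2 d hd)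
  refine h4.trans ?_
  exact mul_le_mul_of_nonneg_right hr.le (by positivity)

end Pool.Agent.Y542.LD
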